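import Pool.Agent.Helper92.HM.Max
import Pool.Agent.N794.CG.Aut

/-!
# A maximal inequality for the `H`-moments of the class groups of the quadratic fields given by automatic sets

From Mathlib: `DFA ℕ σ`: the deterministic automata with the set of states `σ` and the alphabet `ℕ`; `M.accepts`: the set
of the words accepted by `M`; `Nat.digits b v`: the digits of `v` in base `b`, from the least significant to the most
significant one; `𝓞 K`, `ClassGroup`, `NumberField.discr`: the ring of integers, the class group and the discriminant.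

Method: the members of an automatic set which is not sparse are dominated by random integers with small characteristic functions
(starting library, `Pool.Agent.N794.CG`, `H491R4.AF`); for such families many small primes split in almost all of the fields
`ℚ(√(j n))`, with a high power saving in the probability of the exceptions at each scale (`H491R4.HM`, `R459.Tor`); then the
argument of Ellenberg and Venkatesh. Here the exceptions at the different scales are collected in one function, which does not
depend on the prime, the group and the field; so the supremum over all the primes and groups can be taken inside of the mean value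
(`Pool.Agent.Helper92.HM`).
-/

set_option autoImplicit false

namespace Pool.Agent.Results.MP_0f260b_nt.AutomaticMoments

open Finset NumberField
open Pool.Agent.Helper92.HM (numSur sur_max)
open Pool.Agent.N794.CG (aut_dom mem scaleB_of acc_mem)

open Classical in
/-- The integers `0 ≤ v < N` whose base `b` digits are accepted by the automaton `M`. -/
noncomputable def elems {σ : Type} (b : ℕ) (M : DFA ℕ σ) (N : ℕ) : Finset ℕ :=
  (range N).filter fun v => Nat.digits b v ∈ M.accepts

/-- Let `S` be a `b`-automatic set: the set of the integers `v ≥ 0` whose base `b` digits are accepted by a finite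
automaton `M`. Suppose that `S` is not sparse: the number of the elements of `S` below `N` is not bounded by a power of
`log N`. Let `r ≥ 1`. There is `δ > 0` such that for `κ ≠ 0` and `T`, `V` there are `B`, `N₀` such that the following holds for all
`N ≥ N₀` and all integers `j ≠ 0` with `|j| ≤ (log N) ^ T`.

There is a function `F ≥ 0` such that for every shift `c` (of any size) the mean value of `F (c + κ v)` over the `v < N` in `S` is
at most `(log N) ^ B`, and such that for all `n` with `|n| ≤ N ^ V`, every quadratic field `K = ℚ(√(j n))`, ALL primes `p` and `m`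
with `p ^ m ≤ (log N) ^ T` and ALL products `H` of `r` cyclic groups of orders `p ^ e i` with `e i ≤ m`, the number of the
surjective homomorphisms from the `p`-part of the class group of `K` onto `H` is at most
`F (n) (|d| ^ (1 / 2) max (|d| ^ (- 1 / (2 p ^ m)), N ^ (- δ))) ^ r`, where `d` is the discriminant of `K`. -/
theorem result {σ : Type} [Finite σ] (b : ℕ) (hb : 2 ≤ b) (M : DFA ℕ σ)
    (hM : ∀ k : ℕ, ∃ᶠ N : ℕ in Filter.atTop, Real.log N ^ k < ((elems b M N).card : ℝ)) (r : ℕ) (hr : 1 ≤ r) :
    ∃ δ : ℝ, 0 < δ ∧ ∀ κ : ℤ, κ ≠ 0 → ∀ T V : ℕ, ∃ B N₀ : ℕ, ∀ N : ℕ, N₀ ≤ N →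
    ∀ j : ℤ, j ≠ 0 → |(j : ℝ)| ≤ Real.log N ^ T → ∃ F : ℤ → ℝ, (∀ n, 0 ≤ F n) ∧
      (∀ c : ℤ, ∑ v ∈ elems b M N, F (c + κ * (v : ℕ)) ≤ Real.log N ^ B * (elems b M N).card) ∧
      ∀ n : ℤ, |(n : ℝ)| ≤ (N : ℝ) ^ V → ∀ (K : Type) [Field K] [NumberField K] (α : K), Module.finrank ℚ K = 2 →
        IntermediateField.adjoin ℚ {α} = ⊤ → α ^ 2 = ((j * n : ℤ) : K) →
        ∀ (p m : ℕ) (e : Fin r → ℕ), p.Prime → ((p ^ m : ℕ) : ℝ) ≤ Real.log N ^ T → (∀ i, e i ≤ m) →
          (numSur K p e : ℝ) ≤ F n * (√|(discr K : ℝ)| *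
            max (|(discr K : ℝ)| ^ (-(1 / (2 * (p : ℝ) ^ m)))) ((N : ℝ) ^ (-δ))) ^ r := by
  classical
  have := Fintype.ofFinite σ
  have hel : ∀ N, elems b M N = mem b M N := fun N => by
    unfold elems mem
    congr!
  obtain ⟨Bb, A, e₀, N₁, hB, H⟩ := aut_dom b hb M (fun k => by
    refine (hM k).mono fun N hN => ?_
    rw [acc_mem, ← hel]
    exact hN)
  obtain ⟨W, hW, G⟩ := sur_max Bb hB A (1 / 2) (by norm_num) (by norm_num) r hr
  have hWr : (0 : ℝ) < W := by exact_mod_cast hW
  refine ⟨1 / W, by positivity, fun κ hκ T V => ?_⟩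
  obtain ⟨B', k₀, J⟩ := G Bb.factorial κ (Nat.factorial_pos Bb) hκ (2 * T) V
  refine ⟨2 * B' * r + e₀, N₁ + Bb ^ (k₀ + Bb) + 32, fun N hN j hj0 hj => ?_⟩
  have hN1 : 1 ≤ N := by omega
  have hN32 : 32 ≤ N := by omega
  obtain ⟨k, hk⟩ : ∃ k, k = Nat.log Bb N + 1 := ⟨_, rfl⟩
  have hklog : k₀ + Bb ≤ Nat.log Bb N := by
    have h1 : Bb ^ (k₀ + Bb) ≤ N := by omega
    exact (Nat.le_log_iff_pow_le (by omega) (by omega)).2 h1
  have hsc := scaleB_of Bb hB N hN1
  rw [← hk] at hsc
  have hkB : Bb ≤ k := by omega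
  obtain ⟨Maj, h1, h2, h3⟩ := J k (by omega) j hj0 (hsc.int_le hB hN1 hkB T j hj)
  have hlog3 : (3 : ℝ) ≤ Real.log N := by
    rw [Real.le_log_iff_exp_le (by exact_mod_cast hN1)]
    have h4 := Real.exp_one_lt_d9
    have h5 : Real.exp 3 = Real.exp 1 * Real.exp 1 * Real.exp 1 := by
      rw [← Real.exp_add, ← Real.exp_add]; norm_num
    have h6 := Real.exp_pos 1
    have h7 : (32 : ℝ) ≤ N := by exact_mod_cast hN32
    have h8 : Real.exp 1 * Real.exp 1 ≤ 2.7182818286 * 2.7182818286 := mul_le_mul h4.le h4.le h6.le (by norm_num)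
    have h9 : Real.exp 1 * Real.exp 1 * Real.exp 1 ≤ 2.7182818286 * 2.7182818286 * 2.7182818286 :=
      mul_le_mul h8 h4.le h6.le (by norm_num)
    rw [h5]
    norm_num at h9
    linarith
  have hlog1 : (1 : ℝ) ≤ Real.log N := by linarith
  have hkl : (k : ℝ) ≤ Real.log N ^ 2 := by
    have h4 := hsc.le_log hB hN1
    nlinarith
  refine ⟨Maj, h1, ?_, ?_⟩
  · intro c
    rw [hel]
    have hd := H N (by omega) κ c
    rw [← hk] at hd
    rcases Nat.eq_zero_or_pos (mem b M N).card with h0 | h0
    · rw [card_eq_zero] at h0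
      rw [h0]
      simp
    have h0r : (0 : ℝ) < (mem b M N).card := by exact_mod_cast h0
    have h4 := h2 (Real.log N ^ e₀) ℕ (mem b M N) (fun _ => 1 / ((mem b M N).card : ℝ)) (fun v => c + κ * (v : ℕ))
      (one_le_pow₀ hlog1) (fun _ _ => by positivity) (by
        rw [sum_const, nsmul_eq_mul, mul_one_div, div_self h0r.ne']) hd
    rw [← mul_sum, one_div, inv_mul_le_iff₀ h0r] at h4
    refine h4.trans ?_
    rw [mul_comm]
    apply mul_le_mul_of_nonneg_right _ h0r.le
    have h5 : ((k : ℝ) ^ B') ^ r ≤ Real.log N ^ (2 * B' * r) := by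
      rw [mul_assoc, pow_mul, ← pow_mul]
      exact pow_le_pow_left₀ (Nat.cast_nonneg _) hkl _
    calc Real.log N ^ e₀ * ((k : ℝ) ^ B') ^ r ≤ Real.log N ^ e₀ * Real.log N ^ (2 * B' * r) :=
          mul_le_mul_of_nonneg_left h5 (by positivity)
      _ = Real.log N ^ (2 * B' * r + e₀) := by rw [← pow_add, add_comm]
  · intro n hn K _ _ α hfin hα hsq p m e hp hpm he
    have h4 := h3 n (hsc.size_le V n hn) K α hfin hα hsq p m e hp (hsc.nat_le hB hN1 hkB T (p ^ m) hpm) he
    refine h4.trans ?_
    apply mul_le_mul_of_nonneg_left _ (h1 n)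
    have h5 : (0 : ℝ) ≤ (Bb : ℝ) ^ (-((k : ℝ) / W)) := Real.rpow_nonneg (Nat.cast_nonneg _) _
    apply pow_le_pow_left₀ (mul_nonneg (Real.sqrt_nonneg _) (le_max_of_le_right h5))
    apply mul_le_mul_of_nonneg_left _ (Real.sqrt_nonneg _)
    exact max_le_max le_rfl (hsc.rpow hN1 W)

end Pool.Agent.Results.MP_0f260b_nt.AutomaticMoments
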