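import Pool.Agent.Helper92.HM.Max
import Pool.Agent.N794.CG.Sv

/-!
# A maximal inequality for the `H`-moments of the class groups over the integer parts of functions of non-integral order

From Mathlib: `ContDiffAt ℝ ⊤`: infinitely differentiable at a point; `iteratedDeriv m f`: the derivative of order `m`;
`⌊y⌋₊`: the integer part of `y`, and `0` for `y < 0`; `𝓞 K`, `ClassGroup`, `NumberField.discr`: the ring of integers, the class
group and the discriminant.

Examples: `f t = t ^ c`, `t ^ c (log t) ^ a`, `c > 0` not an integer; the quadratic fields `ℚ(√(± j ⌊n ^ c⌋))`.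

Method: the characteristic function of the integer part of `f n` is small at all frequencies which are not close to
integers (starting library, `Pool.Agent.N193.PS`, `N794.CG`); for such families many small primes split in almost all of the
fields `ℚ(√(j n))`, with a high power saving in the probability of the exceptions at each scale (`H491R4.HM`, `R459.Tor`); then
the argument of Ellenberg and Venkatesh. Here the exceptions at the different scales are collected in one function, which does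
not depend on the prime, the group and the field; so the supremum over all the primes and groups can be taken inside of the mean
value (`Pool.Agent.Helper92.HM`).
-/

set_option autoImplicit false

namespace Pool.Agent.Results.MP_0f260b_nt.NonIntegralOrderMoments

open Finset NumberField Filter
open Pool.Agent.Helper92.HM (numSur sur_max)
open Pool.Agent.N794.CG (sv_dom scale_of dom_of_decays)

/-- `f` is smoothly varying of index `c`: it is infinitely differentiable and positive for large arguments, and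
`t ^ m f⁽ᵐ⁾(t) / f(t) → c (c - 1) ... (c - m + 1)` for every `m`. -/
def SmoothlyVarying (c : ℝ) (f : ℝ → ℝ) : Prop :=
  (∃ t₀ : ℝ, ∀ t > t₀, ContDiffAt ℝ ((⊤ : ℕ∞) : WithTop ℕ∞) f t ∧ 0 < f t) ∧
  ∀ m : ℕ, Tendsto (fun t => t ^ m * iteratedDeriv m f t / f t) atTop (nhds (∏ i ∈ range m, (c - i)))

/-- Let `f` be smoothly varying of an index `c > 0` which is not an integer, and `r ≥ 1`. There is `δ > 0` such that for `κ ≠ 0`
and `T`, `V` there are `B`, `X₀` such that the following holds for all natural numbers `M` with `f M ≥ X₀` and all integers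
`j ≠ 0` with `|j| ≤ (log (f M)) ^ T`.

There is a function `F ≥ 0` such that for every shift `c₀` (of any size) the mean value of `F (c₀ + κ ⌊f n⌋)` over the integers
`1 ≤ n ≤ M` is at most `(log (f M)) ^ B`, and such that for all `n` with `|n| ≤ (f M) ^ V`, every quadratic field `K = ℚ(√(j n))`,
ALL primes `p` and `m` with `p ^ m ≤ (log (f M)) ^ T` and ALL products `H` of `r` cyclic groups of orders `p ^ e i` with
`e i ≤ m`, the number of the surjective homomorphisms from the `p`-part of the class group of `K` onto `H` is at most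
`F (n) (|d| ^ (1 / 2) max (|d| ^ (- 1 / (2 p ^ m)), (f M) ^ (- δ))) ^ r`, where `d` is the discriminant of `K`. -/
theorem result (c : ℝ) (f : ℝ → ℝ) (hc : 0 < c) (hn : ∀ m : ℕ, c ≠ m) (hf : SmoothlyVarying c f) (r : ℕ) (hr : 1 ≤ r) :
    ∃ δ : ℝ, 0 < δ ∧ ∀ κ : ℤ, κ ≠ 0 → ∀ T V : ℕ, ∃ B X₀ : ℕ, ∀ M : ℕ, (X₀ : ℝ) ≤ f M →
    ∀ j : ℤ, j ≠ 0 → |(j : ℝ)| ≤ Real.log (f M) ^ T → ∃ F : ℤ → ℝ, (∀ n, 0 ≤ F n) ∧
      (∀ c₀ : ℤ, ∑ n ∈ Icc 1 M, F (c₀ + κ * (⌊f n⌋₊ : ℕ)) ≤ Real.log (f M) ^ B * M) ∧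
      ∀ n : ℤ, |(n : ℝ)| ≤ (f M) ^ V → ∀ (K : Type) [Field K] [NumberField K] (α : K), Module.finrank ℚ K = 2 →
        IntermediateField.adjoin ℚ {α} = ⊤ → α ^ 2 = ((j * n : ℤ) : K) →
        ∀ (p m : ℕ) (e : Fin r → ℕ), p.Prime → ((p ^ m : ℕ) : ℝ) ≤ Real.log (f M) ^ T → (∀ i, e i ≤ m) →
          (numSur K p e : ℝ) ≤ F n * (√|(discr K : ℝ)| *
            max (|(discr K : ℝ)| ^ (-(1 / (2 * (p : ℝ) ^ m)))) ((f M) ^ (-δ))) ^ r := by
  classical
  obtain ⟨A, X₁, H⟩ := sv_dom c f hc hn hf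
  obtain ⟨W, hW, G⟩ := sur_max 2 le_rfl A (1 / 2) (by norm_num) (by norm_num) r hr
  have hWr : (0 : ℝ) < W := by exact_mod_cast hW
  refine ⟨1 / W, by positivity, fun κ hκ T V => ?_⟩
  obtain ⟨B', k₀, J⟩ := G 1 κ le_rfl hκ T (2 * V)
  refine ⟨2 * B' * r + r, X₁ + 2 ^ (k₀ + 3), fun M hM j hj0 hj => ?_⟩
  obtain ⟨Z, hZ⟩ : ∃ Z : ℝ, Z = f M := ⟨_, rfl⟩
  have hZX : (X₁ : ℝ) + 2 ^ (k₀ + 3) ≤ Z := by
    rw [hZ]
    push_cast at hM
    exact hM
  have h2k : (8 : ℝ) ≤ 2 ^ (k₀ + 3) := by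
    have : (1 : ℝ) ≤ 2 ^ k₀ := one_le_pow₀ (by norm_num)
    rw [pow_add]
    linarith
  have hX₁0 : (0 : ℝ) ≤ X₁ := Nat.cast_nonneg _
  have hZ8 : (8 : ℝ) ≤ Z := by linarith
  obtain ⟨k, hk⟩ : ∃ k, k = Nat.log 2 ⌊Z⌋₊ := ⟨_, rfl⟩
  have hsc := scale_of Z (by linarith)
  rw [← hk] at hsc
  have hklow : k₀ + 3 ≤ k := by
    rw [hk]
    apply (Nat.le_log_iff_pow_le (by omega) _).2
    · apply Nat.le_floor
      push_cast
      linarith
    · have : 1 ≤ ⌊Z⌋₊ := by
        rw [Nat.one_le_floor_iff]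
        linarith
      omega
  obtain ⟨hM1, hdec⟩ := H M (by rw [← hZ]; linarith)
  have hL2 : (2 : ℝ) ≤ Real.log Z := by
    rw [Real.le_log_iff_exp_le (by linarith)]
    have h1 := Real.exp_one_lt_d9
    have h2 : Real.exp 2 = Real.exp 1 * Real.exp 1 := by rw [← Real.exp_add]; norm_num
    have h3 := Real.exp_pos 1
    rw [h2]
    nlinarith
  rw [← hZ] at hj
  obtain ⟨Maj, h1, h2, h3⟩ := J k (by omega) j hj0 (hsc.int_le (by omega) T j hj)
  have hkl : (k : ℝ) ≤ Real.log Z ^ 2 := by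
    have h4 := hsc.le_log
    nlinarith
  rw [← hZ]
  refine ⟨fun n => 2 ^ r * Maj n, fun n => mul_nonneg (by positivity) (h1 n), ?_, ?_⟩
  · intro c₀
    have hM0 : (0 : ℝ) < M := by exact_mod_cast hM1
    have h4 := h2 1 ℕ (Icc 1 M) (fun _ => 1 / (M : ℝ)) (fun n => c₀ + κ * (⌊f n⌋₊ : ℕ)) le_rfl
      (fun _ _ => by positivity) (by
        rw [sum_const, Nat.card_Icc, nsmul_eq_mul, Nat.add_sub_cancel, mul_one_div, div_self hM0.ne'])
      (dom_of_decays (hdec κ c₀ k (by rw [← hZ]; exact hsc.low)))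
    rw [← mul_sum, one_div, inv_mul_le_iff₀ hM0, one_mul] at h4
    rw [← mul_sum]
    have h5 : ((k : ℝ) ^ B') ^ r ≤ Real.log Z ^ (2 * B' * r) := by
      rw [mul_assoc, pow_mul, ← pow_mul]
      exact pow_le_pow_left₀ (Nat.cast_nonneg _) hkl _
    calc (2 : ℝ) ^ r * ∑ n ∈ Icc 1 M, Maj (c₀ + κ * (⌊f n⌋₊ : ℕ)) ≤ Real.log Z ^ r * (M * Real.log Z ^ (2 * B' * r)) := by
          apply mul_le_mul (pow_le_pow_left₀ (by norm_num) hL2 r) _ (sum_nonneg fun n _ => h1 _) (by positivity)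
          exact h4.trans (mul_le_mul_of_nonneg_left h5 hM0.le)
      _ = Real.log Z ^ (2 * B' * r + r) * M := by rw [pow_add]; ring
  · intro n hn' K _ _ α hfin hα hsq p m e hp hpm he
    have h4 := h3 n (hsc.size_le (by omega) V n hn') K α hfin hα hsq p m e hp (hsc.nat_le (by omega) T (p ^ m) hpm) he
    refine h4.trans ?_
    have hq0 : (0 : ℝ) ≤ |(discr K : ℝ)| ^ (-(1 / (2 * (p : ℝ) ^ m))) := Real.rpow_nonneg (abs_nonneg _) _
    have h5 : max (|(discr K : ℝ)| ^ (-(1 / (2 * (p : ℝ) ^ m)))) (((2 : ℕ) : ℝ) ^ (-((k : ℝ) / W))) ≤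
        2 * max (|(discr K : ℝ)| ^ (-(1 / (2 * (p : ℝ) ^ m)))) (Z ^ (-(1 / (W : ℝ)))) := by
      apply max_le
      · have := le_max_left (|(discr K : ℝ)| ^ (-(1 / (2 * (p : ℝ) ^ m)))) (Z ^ (-(1 / (W : ℝ))))
        linarith
      · have h6 := hsc.rpow W hW
        have := le_max_right (|(discr K : ℝ)| ^ (-(1 / (2 * (p : ℝ) ^ m)))) (Z ^ (-(1 / (W : ℝ))))
        rw [Nat.cast_ofNat]
        linarith
    have h7 : (0 : ℝ) ≤ √|(discr K : ℝ)| := Real.sqrt_nonneg _
    calc Maj n * (√|(discr K : ℝ)| *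
          max (|(discr K : ℝ)| ^ (-(1 / (2 * (p : ℝ) ^ m)))) (((2 : ℕ) : ℝ) ^ (-((k : ℝ) / W)))) ^ r ≤
        Maj n * (√|(discr K : ℝ)| *
          (2 * max (|(discr K : ℝ)| ^ (-(1 / (2 * (p : ℝ) ^ m)))) (Z ^ (-(1 / (W : ℝ)))))) ^ r := by
          apply mul_le_mul_of_nonneg_left _ (h1 n)
          apply pow_le_pow_left₀ (mul_nonneg h7 (le_max_of_le_left hq0))
          exact mul_le_mul_of_nonneg_left h5 h7
      _ = 2 ^ r * Maj n * (√|(discr K : ℝ)| *
          max (|(discr K : ℝ)| ^ (-(1 / (2 * (p : ℝ) ^ m)))) (Z ^ (-(1 / (W : ℝ))))) ^ r := by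
          have e0 : ∀ u x : ℝ, (u * (2 * x)) ^ r = 2 ^ r * (u * x) ^ r := fun u x => by
            rw [← mul_pow]; congr 1; ring
          rw [e0]
          ring

end Pool.Agent.Results.MP_0f260b_nt.NonIntegralOrderMoments
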