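import Pool.Agent.R418.UP.F
import Pool.Agent.R345.HM1
import Pool.Agent.R345.CT2

/-!
# The `H`-moments of the class groups of the fields `ℚ(√f(j))`, uniformly in the polynomial `f`

Let `f` be ANY polynomial with integer coefficients, of degree between `1` and `D`, without multiple roots, whose coefficients
have absolute values at most `T₀ ^ B`. Let the number `N` of the values be at least a power of the logarithm:
`(log T₀) ^ C ≤ N ≤ T₀`. For `j < N`, `f(j)` not a square, let `K = ℚ(√f(j))`, with discriminant `d` (real or imaginary). For a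
prime `p` and a finite abelian `p`-group `H` with `r` cyclic factors and exponent dividing `ℓ = p ^ m` let
`#Sur(Cl(K)[p^∞], H)` be the number of the surjective homomorphisms from the `p`-part of the class group onto `H`.

Then the mean value over `j < N` of the supremum over ALL `p` and ALL `H` of

  `#Sur(Cl(K)[p^∞], H) / (T₀ ^ ε ℓ ^ 2 |d| ^ (1 / 2) max (|d| ^ (-1 / (2 ℓ)), N ^ (- (1 / 3 - δ) / r))) ^ r`

is at most a constant which depends only on `ε`, `δ`, `B`, `D`, `r` (and not on `f`, `T₀`, `N`). In particular every `H`-moment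
over the values of `f` has the full `r`-fold saving `|d| ^ (-r / (2 ℓ))` over the trivial bound `|d| ^ (r / 2)`, up to `T₀ ^ ε`,
if `N ^ (1 / 3 - δ) ≥ |d| ^ (r / (2 ℓ))`.

The proof combines the starting result on the torsion (`Pool.Agent.R418.UP.mainT`) with the trivial bound for the exceptions and
a count of surjections (`Pool.Agent.R345.HM`).
-/

set_option autoImplicit false

namespace Pool.Agent.Results.MP_0f260b_nt.PolynomialMoments

open Finset NumberField Polynomial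
open Pool.Agent.R418.UP (BadT mainT)
open Pool.Agent.R345.SS (log_pow_two_le)

/-- `#Sur(Cl(K)[p^∞], H)` for the group `H`, the product of the cyclic groups of orders `p ^ e i`. -/
noncomputable def numSur (K : Type) [Field K] [NumberField K] (p : ℕ) {r : ℕ} (e : Fin r → ℕ) : ℕ :=
  Nat.card {φ : CommGroup.primaryComponent (ClassGroup (𝓞 K)) p →* (∀ i : Fin r, Multiplicative (ZMod (p ^ e i))) //
    Function.Surjective φ}

lemma numSur_le (K : Type) [Field K] [NumberField K] (p : ℕ) (hp : p.Prime) {r : ℕ} (e : Fin r → ℕ) (m : ℕ)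
    (he : ∀ i, e i ≤ m) : (numSur K p e : ℝ) ≤ (Nat.card {x : ClassGroup (𝓞 K) // x ^ (p ^ m) = 1} : ℝ) ^ r := by
  have := Pool.Agent.R345.HM.card_sur_le (ClassGroup (𝓞 K)) p hp m r e he
  exact_mod_cast this

/-- the trivial bound -/
lemma triv : ∃ C : ℝ, 1 ≤ C ∧ ∀ (K : Type) [Field K] [NumberField K] (ℓ : ℕ), Module.finrank ℚ K = 2 → 1 ≤ ℓ →
    (Nat.card {x : ClassGroup (𝓞 K) // x ^ ℓ = 1} : ℝ) ≤ C * ((ℓ : ℝ) ^ 2 * √|(discr K : ℝ)|) := by
  obtain ⟨C₁, hC₁, hmain⟩ := Pool.Agent.Results.MP_695920_nt.LogSavingAllDegrees.result 2 le_rfl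
  refine ⟨1 + 6 * |C₁|, by linarith [abs_nonneg C₁], ?_⟩
  intro K _ _ ℓ hfin hℓ
  have hD2 : (2 : ℤ) < |discr K| := abs_discr_gt_two (by omega)
  have hDn : |(discr K : ℝ)| = ((discr K).natAbs : ℝ) := by
    rw [Nat.cast_natAbs, Int.cast_abs]
  have hD3 : 3 ≤ (discr K).natAbs := by
    have : (2 : ℤ) < ((discr K).natAbs : ℤ) := by rw [Int.natCast_natAbs]; exact hD2
    omega
  have hres := (hmain ℓ hℓ K hfin).2.1
  rw [hDn] at hres
  rw [hDn]
  obtain ⟨D, hD⟩ : ∃ D : ℕ, D = (discr K).natAbs := ⟨_, rfl⟩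
  rw [← hD] at hres hD3
  rw [← hD]
  have hDR : (3 : ℝ) ≤ D := by exact_mod_cast hD3
  have hD0 : (0 : ℝ) < D := by linarith
  have hu : 1 ≤ Real.log (D : ℝ) := by
    rw [Real.le_log_iff_exp_le hD0]
    linarith [Real.exp_one_lt_d9]
  have hlp := log_pow_two_le _ hu
  have hsD : 0 ≤ √(D : ℝ) := Real.sqrt_nonneg _
  have hCa := le_abs_self C₁
  calc (Nat.card {x : ClassGroup (𝓞 K) // x ^ ℓ = 1} : ℝ)
      ≤ C₁ * (ℓ : ℝ) ^ 2 * (Real.log (Real.log (D : ℝ) + 2)) ^ 2 * (√(D : ℝ) / Real.log (D : ℝ)) := hres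
    _ = C₁ * ((ℓ : ℝ) ^ 2 * ((Real.log (Real.log (D : ℝ) + 2)) ^ 2 / Real.log (D : ℝ)) * √(D : ℝ)) := by ring
    _ ≤ |C₁| * ((ℓ : ℝ) ^ 2 * 6 * √(D : ℝ)) := by
        apply mul_le_mul hCa _ (by positivity) (abs_nonneg _)
        gcongr
    _ = 6 * |C₁| * ((ℓ : ℝ) ^ 2 * √(D : ℝ)) := by ring
    _ ≤ _ := by
        apply mul_le_mul_of_nonneg_right _ (by positivity)
        linarith

open Classical in
/-- Let `ε, δ > 0`, `B`, `D ≥ 1` and `r ≥ 1` be given. There are `C, M > 0` such that the following holds for all `T₀`, `N` with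
`(log T₀) ^ C ≤ N ≤ T₀` and all polynomials `f` with integer coefficients of absolute value at most `T₀ ^ B`, of degree between
`1` and `D`, without multiple roots.

There is a function `F ≥ 0` on the numbers `j < N` with mean value at most `M`, such that for all `j < N` for which `f(j)` is not
a square, every quadratic field `K` with a square root of `f(j)`, ALL primes `p`, all `m` and ALL products `H` of `r` cyclic
groups of orders `p ^ e i` with `e i ≤ m`, the number of the surjective homomorphisms from the `p`-part of the class group of `K`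
onto `H` is at most `F (j) (T₀ ^ ε ℓ ^ 2 |d| ^ (1 / 2) max (|d| ^ (- 1 / (2 ℓ)), N ^ (- (1 / 3 - δ) / r))) ^ r`, where
`ℓ = p ^ m` and `d` is the discriminant of `K`. -/
theorem result (ε δ : ℝ) (B D r : ℕ) (hε : 0 < ε) (hδ : 0 < δ) (hD : 1 ≤ D) (hr : 1 ≤ r) :
    ∃ C M : ℝ, 0 < C ∧ 0 < M ∧ ∀ (T₀ N : ℕ) (f : ℤ[X]), 1 ≤ f.natDegree → f.natDegree ≤ D →
      (f.map (Int.castRingHom ℚ)).Separable → (∀ i, |((f.coeff i : ℤ) : ℝ)| ≤ (T₀ : ℝ) ^ B) →
      Real.log T₀ ^ C ≤ N → N ≤ T₀ →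
      ∃ F : ℕ → ℝ, (∀ j, 0 ≤ F j) ∧ ∑ j ∈ range N, F j ≤ M * N ∧
        ∀ j < N, ¬ IsSquare (f.eval (j : ℤ)) → ∀ (K : Type) [Field K] [NumberField K] (α : K), Module.finrank ℚ K = 2 →
          α ^ 2 = ((f.eval (j : ℤ) : ℤ) : K) → ∀ (p m : ℕ) (e : Fin r → ℕ), p.Prime → (∀ i, e i ≤ m) →
            (numSur K p e : ℝ) ≤ F j * ((T₀ : ℝ) ^ ε * ((p ^ m : ℕ) : ℝ) ^ 2 * √|(discr K : ℝ)| *
              max (|(discr K : ℝ)| ^ (-(1 / (2 * ((p ^ m : ℕ) : ℝ))))) ((N : ℝ) ^ (-((1 / 3 - δ) / r)))) ^ r := by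
  obtain ⟨C, K₀, hC, hK₀, h⟩ := mainT ε δ B D hε hδ hD
  obtain ⟨C₁, hC₁, htriv⟩ := triv
  refine ⟨C, 1 + K₀ * C₁ ^ r, hC, by positivity, ?_⟩
  intro T₀ N f hf1 hf2 hf3 hf4 hN hNT
  obtain ⟨T, hT⟩ : ∃ T : Finset ℕ, T = (range N).filter (fun j : ℕ => BadT ε T₀ (f.eval (j : ℤ))) := ⟨_, rfl⟩
  have hTc := h T₀ N f hf1 hf2 hf3 hf4 hN hNT T (by
    intro j hj
    rw [hT, mem_filter, mem_range] at hj
    exact hj)
  have hTs : T ⊆ range N := by rw [hT]; exact filter_subset _ _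
  refine ⟨fun j => if j ∈ T then C₁ ^ r * (N : ℝ) ^ (1 / 3 - δ) else 1, ?_, ?_, ?_⟩
  · intro j
    dsimp only
    split_ifs <;> positivity
  · rcases Nat.eq_zero_or_pos N with h0 | h0
    · rw [h0]; simp
    have hN0 : (0 : ℝ) < N := by exact_mod_cast h0
    have h1 : ∑ j ∈ range N, (if j ∈ T then C₁ ^ r * (N : ℝ) ^ (1 / 3 - δ) else 1) ≤
        ∑ j ∈ range N, ((if j ∈ T then C₁ ^ r * (N : ℝ) ^ (1 / 3 - δ) else 0) + 1) := by
      refine sum_le_sum fun j _ => ?_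
      split_ifs
      · linarith
      · linarith
    refine h1.trans ?_
    rw [sum_add_distrib, ← sum_filter, sum_const, sum_const, card_range, nsmul_eq_mul, nsmul_eq_mul, mul_one]
    have h2 : (range N).filter (fun j => j ∈ T) = T := by
      ext j
      rw [mem_filter]
      exact ⟨fun hj => hj.2, fun hj => ⟨hTs hj, hj⟩⟩
    rw [h2]
    have h3 : (T.card : ℝ) * (C₁ ^ r * (N : ℝ) ^ (1 / 3 - δ)) ≤ K₀ * C₁ ^ r * N := by
      calc (T.card : ℝ) * (C₁ ^ r * (N : ℝ) ^ (1 / 3 - δ)) ≤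
          (K₀ * (N : ℝ) ^ (2 / 3 + δ)) * (C₁ ^ r * (N : ℝ) ^ (1 / 3 - δ)) :=
            mul_le_mul_of_nonneg_right hTc (by positivity)
        _ = K₀ * C₁ ^ r * ((N : ℝ) ^ (2 / 3 + δ) * (N : ℝ) ^ (1 / 3 - δ)) := by ring
        _ = K₀ * C₁ ^ r * N := by
            rw [← Real.rpow_add hN0, show (2 / 3 + δ + (1 / 3 - δ) : ℝ) = 1 by ring, Real.rpow_one]
    linarith
  · intro j hj hsq K _ _ α hfin hα p m e hp he
    obtain ⟨ℓ, hℓ⟩ : ∃ ℓ : ℕ, ℓ = p ^ m := ⟨_, rfl⟩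
    have hℓ1 : 1 ≤ ℓ := by rw [hℓ]; exact Nat.one_le_pow _ _ hp.pos
    refine (numSur_le K p hp e m he).trans ?_
    rw [← hℓ]
    have hN1 : 1 ≤ N := by omega
    have hN0 : (0 : ℝ) < N := by exact_mod_cast hN1
    have hT1 : (1 : ℝ) ≤ T₀ := by exact_mod_cast (hN1.trans hNT)
    have hTε : (1 : ℝ) ≤ (T₀ : ℝ) ^ ε := Real.one_le_rpow hT1 hε.le
    have hℓr : (1 : ℝ) ≤ (ℓ : ℝ) ^ 2 := one_le_pow₀ (by exact_mod_cast hℓ1)
    obtain ⟨s, hs⟩ : ∃ s : ℝ, s = √|(discr K : ℝ)| := ⟨_, rfl⟩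
    have hs0 : 0 ≤ s := by rw [hs]; exact Real.sqrt_nonneg _
    have hT0 : (0 : ℝ) ≤ (Nat.card {x : ClassGroup (𝓞 K) // x ^ ℓ = 1} : ℝ) := Nat.cast_nonneg _
    have hdpos : 0 < |(discr K : ℝ)| := by
      have : discr K ≠ 0 := discr_ne_zero K
      positivity
    dsimp only
    by_cases hjT : j ∈ T
    · rw [if_pos hjT]
      have h1 := htriv K ℓ hfin hℓ1
      rw [← hs] at h1 ⊢
      have h2 : (N : ℝ) ^ (-((1 / 3 - δ) / r)) ≤
          max (|(discr K : ℝ)| ^ (-(1 / (2 * (ℓ : ℝ))))) ((N : ℝ) ^ (-((1 / 3 - δ) / r))) := le_max_right _ _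
      have hr0 : (r : ℝ) ≠ 0 := by exact_mod_cast (by omega : r ≠ 0)
      have h3 : ((N : ℝ) ^ (-((1 / 3 - δ) / r))) ^ r = (N : ℝ) ^ (-(1 / 3 - δ)) := by
        rw [← Real.rpow_natCast, ← Real.rpow_mul hN0.le]
        congr 1
        field_simp
      have h4 : (N : ℝ) ^ (1 / 3 - δ) * (N : ℝ) ^ (-(1 / 3 - δ)) = 1 := by
        rw [← Real.rpow_add hN0, add_neg_cancel, Real.rpow_zero]
      calc (Nat.card {x : ClassGroup (𝓞 K) // x ^ ℓ = 1} : ℝ) ^ r ≤ (C₁ * ((ℓ : ℝ) ^ 2 * s)) ^ r :=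
            pow_le_pow_left₀ hT0 h1 r
        _ = C₁ ^ r * ((N : ℝ) ^ (1 / 3 - δ) * (N : ℝ) ^ (-(1 / 3 - δ))) * ((ℓ : ℝ) ^ 2 * s) ^ r := by
            rw [h4, mul_one, mul_pow]
        _ = C₁ ^ r * (N : ℝ) ^ (1 / 3 - δ) * (((ℓ : ℝ) ^ 2 * s) * (N : ℝ) ^ (-((1 / 3 - δ) / r))) ^ r := by
            rw [mul_pow ((ℓ : ℝ) ^ 2 * s), h3]; ring
        _ ≤ C₁ ^ r * (N : ℝ) ^ (1 / 3 - δ) * ((T₀ : ℝ) ^ ε * (ℓ : ℝ) ^ 2 * s *
            max (|(discr K : ℝ)| ^ (-(1 / (2 * (ℓ : ℝ))))) ((N : ℝ) ^ (-((1 / 3 - δ) / r)))) ^ r := by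
            apply mul_le_mul_of_nonneg_left _ (by positivity)
            apply pow_le_pow_left₀ (by positivity)
            apply mul_le_mul _ h2 (by positivity) (by positivity)
            rw [mul_assoc]
            exact le_mul_of_one_le_left (by positivity) hTε
    · rw [if_neg hjT, one_mul]
      apply pow_le_pow_left₀ hT0
      have hnb : ¬ BadT ε T₀ (f.eval (j : ℤ)) := by
        intro hb
        apply hjT
        rw [hT, mem_filter, mem_range]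
        exact ⟨hj, hb⟩
      have h1 : (Nat.card {c : ClassGroup (𝓞 K) // c ^ ℓ = 1} : ℝ) ≤
          |(discr K : ℝ)| ^ (1 / 2 - 1 / (2 * ℓ) : ℝ) * (T₀ : ℝ) ^ ε := by
        by_contra hcon
        push Not at hcon
        exact hnb ⟨hsq, K, inferInstance, inferInstance, ℓ, hfin, ⟨α, hα⟩, hℓ1, hcon⟩
      have h2 : |(discr K : ℝ)| ^ (1 / 2 - 1 / (2 * ℓ) : ℝ) = s * |(discr K : ℝ)| ^ (-(1 / (2 * (ℓ : ℝ)))) := by
        rw [hs, Real.sqrt_eq_rpow, ← Real.rpow_add hdpos]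
        congr 1
      rw [← hs]
      calc (Nat.card {x : ClassGroup (𝓞 K) // x ^ ℓ = 1} : ℝ) ≤
          |(discr K : ℝ)| ^ (1 / 2 - 1 / (2 * ℓ) : ℝ) * (T₀ : ℝ) ^ ε := h1
        _ = (T₀ : ℝ) ^ ε * 1 * s * |(discr K : ℝ)| ^ (-(1 / (2 * (ℓ : ℝ)))) := by rw [h2]; ring
        _ ≤ (T₀ : ℝ) ^ ε * (ℓ : ℝ) ^ 2 * s *
            max (|(discr K : ℝ)| ^ (-(1 / (2 * (ℓ : ℝ))))) ((N : ℝ) ^ (-((1 / 3 - δ) / r))) := by
            apply mul_le_mul _ (le_max_left _ _) (by positivity) (by positivity)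
            apply mul_le_mul_of_nonneg_right _ hs0
            exact mul_le_mul_of_nonneg_left hℓr (by positivity)

end Pool.Agent.Results.MP_0f260b_nt.PolynomialMoments
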