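import Pool.Agent.R345.CT3
import Pool.Agent.R345.HM1

/-!
# A maximal inequality for the `H`-moments of the class groups of the quadratic fields given by arbitrary sumsets

Let `A`, `B` be ARBITRARY sets of integers in `[-N, N]`, without any condition on their structure, and `D ≠ 0`, `|D| ≤ N`. For
`a ∈ A`, `b ∈ B` let `K = ℚ(√(D (a + b)))`, with discriminant `d` (real or imaginary; there is none if `D (a + b)` is a square).
For a prime `p` and a finite abelian `p`-group `H` with `r` cyclic factors and exponent dividing `ℓ = p ^ m` let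
`#Sur(Cl(K)[p^∞], H)` be the number of the surjective homomorphisms from the `p`-part of the class group onto `H`.

If `Y ^ (2 r) ≤ |A|, |B|` then the mean value over the pairs `(a, b)` of the supremum over ALL `p` and ALL `H` of

  `#Sur(Cl(K)[p^∞], H) / (ℓ ^ 2 |d| ^ (1 / 2) max (|d| ^ (-1 / (2 ℓ)), 1 / Y)) ^ r`

is at most `(C (log N) ^ 3) ^ r` with `C = C (r)`. The supremum is inside of the mean value. In particular every `H`-moment over
the family has the full `r`-fold saving `|d| ^ (-r / (2 ℓ))` over the trivial bound `|d| ^ (r / 2)` if `A` and `B` have at least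
`|d| ^ (r / ℓ)` elements.

Proof: the starting result (`Pool.Agent.R345.SS.torsion_pairs`, for the torsion) is used at all the levels `2 ^ j (1 + log³ N)`;
the exceptional sets of the levels are so small that the sum over the levels loses only a power of a logarithm.
-/

set_option autoImplicit false

namespace Pool.Agent.Results.MP_0f260b_nt.SumsetMoments

open Finset NumberField
open Pool.Agent.R345.SS (tor torsion_pairs tor_nonneg)

/-- `#Sur(Cl(K)[p^∞], H)` for the group `H`, the product of the cyclic groups of orders `p ^ e i`. -/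
noncomputable def numSur (K : Type) [Field K] [NumberField K] (p : ℕ) {r : ℕ} (e : Fin r → ℕ) : ℕ :=
  Nat.card {φ : CommGroup.primaryComponent (ClassGroup (𝓞 K)) p →* (∀ i : Fin r, Multiplicative (ZMod (p ^ e i))) //
    Function.Surjective φ}

lemma numSur_le (K : Type) [Field K] [NumberField K] (p : ℕ) (hp : p.Prime) {r : ℕ} (e : Fin r → ℕ) (m : ℕ)
    (he : ∀ i, e i ≤ m) : (numSur K p e : ℝ) ≤ tor K (p ^ m) ^ r := by
  have := Pool.Agent.R345.HM.card_sur_le (ClassGroup (𝓞 K)) p hp m r e he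
  unfold tor
  exact_mod_cast this

/-- the size of the torsion on the level `w` -/
lemma level {C L lam s μ T : ℝ} {ℓ : ℕ} (hC : 1 ≤ C) (hL : 0 ≤ L) (hlam : 0 ≤ lam) (hs : 0 ≤ s) (hμ : 0 ≤ μ)
    (hT : T ≤ C * (ℓ : ℝ) ^ 2 * s)
    (h : 1 ≤ 1200 * L * μ ∨ T ≤ C * (ℓ : ℝ) ^ 2 * lam * s * μ) :
    T ≤ 1200 * C * (L + lam) * ((ℓ : ℝ) ^ 2 * s * μ) := by
  have hC0 : 0 ≤ C := by linarith
  rcases h with h | h
  · calc T ≤ C * (ℓ : ℝ) ^ 2 * s := hT
      _ ≤ C * (ℓ : ℝ) ^ 2 * s * (1200 * L * μ) := le_mul_of_one_le_right (by positivity) h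
      _ = 1200 * C * L * ((ℓ : ℝ) ^ 2 * s * μ) := by ring
      _ ≤ 1200 * C * (L + lam) * ((ℓ : ℝ) ^ 2 * s * μ) := by
          apply mul_le_mul_of_nonneg_right _ (by positivity)
          apply mul_le_mul_of_nonneg_left _ (by positivity)
          linarith
  · calc T ≤ C * (ℓ : ℝ) ^ 2 * lam * s * μ := h
      _ = C * lam * ((ℓ : ℝ) ^ 2 * s * μ) := by ring
      _ ≤ 1200 * C * (L + lam) * ((ℓ : ℝ) ^ 2 * s * μ) := by
          apply mul_le_mul_of_nonneg_right _ (by positivity)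
          have : 0 ≤ C * L := by positivity
          have : 0 ≤ C * lam := by positivity
          nlinarith

lemma disc_gt (K : Type) [Field K] [NumberField K] (h : Module.finrank ℚ K = 2) : (2 : ℝ) < |(discr K : ℝ)| := by
  have h1 : (2 : ℤ) < |discr K| := abs_discr_gt_two (by omega)
  exact_mod_cast h1

lemma inv_case {d L Y : ℝ} {ℓ : ℕ} (hd : 2 < d) (hY : 1 ≤ Y) (hL : 0 ≤ L)
    (h : min (d ^ (1 / (2 * (ℓ : ℝ))) / 600) Y < 2 * L) :
    1 ≤ 1200 * L * max (d ^ (-(1 / (2 * (ℓ : ℝ))))) (1 / Y) := by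
  have hd0 : 0 < d := by linarith
  rcases min_choice (d ^ (1 / (2 * (ℓ : ℝ))) / 600) Y with h6 | h6
  · rw [h6] at h
    have h7 : d ^ (-(1 / (2 * (ℓ : ℝ)))) ≤ max (d ^ (-(1 / (2 * (ℓ : ℝ))))) (1 / Y) := le_max_left _ _
    have h8 : 0 < d ^ (1 / (2 * (ℓ : ℝ))) := by positivity
    have h9 : (1 : ℝ) = d ^ (1 / (2 * (ℓ : ℝ))) * d ^ (-(1 / (2 * (ℓ : ℝ)))) := by
      rw [← Real.rpow_add hd0, add_neg_cancel, Real.rpow_zero]
    calc (1 : ℝ) = d ^ (1 / (2 * (ℓ : ℝ))) * d ^ (-(1 / (2 * (ℓ : ℝ)))) := h9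
      _ ≤ (1200 * L) * max (d ^ (-(1 / (2 * (ℓ : ℝ))))) (1 / Y) :=
          mul_le_mul (by linarith) h7 (by positivity) (by positivity)
  · rw [h6] at h
    have h7 : 1 / Y ≤ max (d ^ (-(1 / (2 * (ℓ : ℝ))))) (1 / Y) := le_max_right _ _
    have hY0 : 0 < Y := by linarith
    calc (1 : ℝ) = Y * (1 / Y) := by field_simp
      _ ≤ (1200 * L) * max (d ^ (-(1 / (2 * (ℓ : ℝ))))) (1 / Y) :=
          mul_le_mul (by linarith) h7 (by positivity) (by positivity)

open Classical in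
/-- Let `r ≥ 1`. There is `C > 0` such that the following holds for all `N ≥ 2`, all integers `D ≠ 0` with `|D| ≤ N`, all sets
`A`, `B` of integers of absolute value at most `N`, and all `Y ≥ 1` with `Y ^ (2 r) ≤ |A|, |B|`.

There is a function `F ≥ 0` on the pairs whose mean value over `A × B` is at most `(C (log N) ^ 3) ^ r`, such that for all
`a ∈ A`, `b ∈ B`, every quadratic field `K = ℚ(√(D (a + b)))`, ALL primes `p`, all `m` and ALL products `H` of `r` cyclic groups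
of orders `p ^ e i` with `e i ≤ m`, the number of the surjective homomorphisms from the `p`-part of the class group of `K` onto
`H` is at most `F (a, b) (ℓ ^ 2 |d| ^ (1 / 2) max (|d| ^ (- 1 / (2 ℓ)), 1 / Y)) ^ r`, `ℓ = p ^ m`, `d` the discriminant of `K`. -/
theorem result (r : ℕ) (hr : 1 ≤ r) : ∃ C : ℝ, 0 < C ∧ ∀ (N : ℕ) (D : ℤ) (A B : Finset ℤ) (Y : ℝ), 2 ≤ N → D ≠ 0 → |D| ≤ N →
    (∀ a ∈ A, |a| ≤ (N : ℤ)) → (∀ b ∈ B, |b| ≤ (N : ℤ)) → 1 ≤ Y → Y ^ (2 * r) ≤ A.card → Y ^ (2 * r) ≤ B.card →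
    ∃ F : ℤ → ℤ → ℝ, (∀ a b, 0 ≤ F a b) ∧
      ∑ a ∈ A, ∑ b ∈ B, F a b ≤ (C * Real.log N ^ 3) ^ r * (A.card * B.card) ∧
      ∀ a ∈ A, ∀ b ∈ B, ∀ (K : Type) [Field K] [NumberField K] (α : K), Module.finrank ℚ K = 2 →
        IntermediateField.adjoin ℚ {α} = ⊤ → α ^ 2 = ((D * (a + b) : ℤ) : K) →
        ∀ (p m : ℕ) (e : Fin r → ℕ), p.Prime → (∀ i, e i ≤ m) →
          (numSur K p e : ℝ) ≤ F a b * (((p ^ m : ℕ) : ℝ) ^ 2 * √|(discr K : ℝ)| *
            max (|(discr K : ℝ)| ^ (-(1 / (2 * ((p ^ m : ℕ) : ℝ))))) (1 / Y)) ^ r := by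
  obtain ⟨C, hC, h⟩ := torsion_pairs r hr
  have hC0 : 0 < C := by linarith
  have hl2 : (0 : ℝ) < Real.log 2 := Real.log_pos (by norm_num)
  have hl2' := Real.log_two_gt_d9
  have hl2'' := Real.log_two_lt_d9
  obtain ⟨C', hC'⟩ : ∃ C' : ℝ, C' = 12000 * C + 96000 * C ^ 2 := ⟨_, rfl⟩
  refine ⟨C', by rw [hC']; positivity, ?_⟩
  intro N D A B Y hN hD0 hDN hA hB hY hYA hYB
  have hNr : (2 : ℝ) ≤ N := by exact_mod_cast hN
  have hlN : Real.log 2 ≤ Real.log N := Real.log_le_log (by norm_num) hNr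
  have hlN0 : 0 < Real.log N := by linarith
  have hsubI : ∀ {A : Finset ℤ}, (∀ a ∈ A, |a| ≤ (N : ℤ)) → A ⊆ Finset.Icc (-(N : ℤ)) N := by
    intro A h a ha
    rw [Finset.mem_Icc]
    exact abs_le.1 (h a ha)
  obtain ⟨Λ, hΛ⟩ : ∃ Λ : ℝ, Λ = 1 + Real.log N ^ 3 := ⟨_, rfl⟩
  have hl3 : 0 < Real.log N ^ 3 := by positivity
  have hΛ1 : 1 ≤ Λ := by rw [hΛ]; linarith
  have hΛ0 : 0 < Λ := by linarith
  have hL1 : ∀ j : ℕ, (1 : ℝ) ≤ 2 ^ j * Λ := fun j => by
    have : (1 : ℝ) ≤ 2 ^ j := one_le_pow₀ (by norm_num)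
    nlinarith
  choose G hG using fun j : ℕ => h N D A B (2 ^ j * Λ) Y hN hD0 hDN (hsubI hA) (hsubI hB) (hL1 j) hY hYA hYB
  obtain ⟨J, hJ⟩ : ∃ J : ℕ, J = Nat.log 2 (2 * N + 1) + 1 := ⟨_, rfl⟩
  have hJY : Y ≤ 2 ^ J := by
    have h1 : Y ≤ Y ^ (2 * r) := le_self_pow₀ hY (by omega)
    have h2 : A.card ≤ 2 * N + 1 := by
      have h3 := card_le_card (hsubI hA)
      rw [Int.card_Icc] at h3
      omega
    have h4 : 2 * N + 1 < 2 ^ J := by
      rw [hJ]
      exact Nat.lt_pow_succ_log_self (by norm_num) _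
    have h5 : (A.card : ℝ) ≤ 2 ^ J := by exact_mod_cast (h2.trans h4.le)
    linarith
  have hJl : (J : ℝ) ≤ 6 * Real.log N := by
    have h1 : 2 ^ Nat.log 2 (2 * N + 1) ≤ N ^ 3 := by
      refine (Nat.pow_log_le_self 2 (by omega)).trans ?_
      have : 2 * 2 ≤ N * N := Nat.mul_le_mul hN hN
      have : 4 * N ≤ N * N * N := Nat.mul_le_mul_right N (by omega)
      calc 2 * N + 1 ≤ 4 * N := by omega
        _ ≤ N * N * N := this
        _ = N ^ 3 := by ring
    have h2 : Real.log ((2 : ℝ) ^ Nat.log 2 (2 * N + 1)) ≤ Real.log ((N : ℝ) ^ 3) :=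
      Real.log_le_log (by positivity) (by exact_mod_cast h1)
    rw [Real.log_pow, Real.log_pow] at h2
    push_cast at h2
    have h3 : (J : ℝ) = (Nat.log 2 (2 * N + 1) : ℝ) + 1 := by rw [hJ]; push_cast; ring
    rw [h3]
    have h4 : (Nat.log 2 (2 * N + 1) : ℝ) * 0.69 ≤ 3 * Real.log N := by
      refine le_trans ?_ h2
      exact mul_le_mul_of_nonneg_left (by linarith) (Nat.cast_nonneg _)
    linarith
  -- the majorant
  set F : ℤ → ℤ → ℝ := fun a b => (2400 * C * Λ) ^ r * (1 + ∑ j ∈ range J, if (a, b) ∈ G j then ((2 : ℝ) ^ (j + 1)) ^ r else 0)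
    with hF
  refine ⟨F, ?_, ?_, ?_⟩
  · intro a b
    rw [hF]
    have : 0 ≤ ∑ j ∈ range J, (if (a, b) ∈ G j then ((2 : ℝ) ^ (j + 1)) ^ r else 0) :=
      sum_nonneg fun j _ => by split_ifs <;> positivity
    positivity
  · have h1 : ∑ a ∈ A, ∑ b ∈ B, F a b = (2400 * C * Λ) ^ r * ((A.card * B.card : ℝ) +
        ∑ j ∈ range J, ((G j).card : ℝ) * ((2 : ℝ) ^ (j + 1)) ^ r) := by
      rw [hF, ← sum_product']
      rw [← mul_sum, sum_add_distrib, sum_const, card_product, nsmul_eq_mul, mul_one]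
      push_cast
      congr 2
      rw [sum_comm]
      refine sum_congr rfl fun j _ => ?_
      have h2 : G j ⊆ A ×ˢ B := (hG j).1
      rw [← sum_filter]
      have h3 : (A ×ˢ B).filter (fun z => (z.1, z.2) ∈ G j) = G j := by
        ext z
        rw [mem_filter]
        exact ⟨fun hz => hz.2, fun hz => ⟨h2 hz, hz⟩⟩
      rw [h3, sum_const, nsmul_eq_mul]
    rw [h1]
    have hAB : (0 : ℝ) ≤ (A.card : ℝ) * B.card := by positivity
    have h2 : ∀ j ∈ range J, ((G j).card : ℝ) * ((2 : ℝ) ^ (j + 1)) ^ r ≤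
        (2 * (C * Real.log N ^ 2 / Λ)) ^ r * (A.card * B.card) := by
      intro j _
      have h3 := (hG j).2.1
      calc ((G j).card : ℝ) * ((2 : ℝ) ^ (j + 1)) ^ r ≤
          ((C * Real.log N ^ 2 / (2 ^ j * Λ)) ^ r * (A.card * B.card)) * ((2 : ℝ) ^ (j + 1)) ^ r :=
            mul_le_mul_of_nonneg_right h3 (by positivity)
        _ = ((C * Real.log N ^ 2 / (2 ^ j * Λ)) * 2 ^ (j + 1)) ^ r * (A.card * B.card) := by
            rw [mul_pow]; ring
        _ = _ := by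
            congr 2
            field_simp
            ring
    have h3 : ∑ j ∈ range J, ((G j).card : ℝ) * ((2 : ℝ) ^ (j + 1)) ^ r ≤
        J * ((2 * (C * Real.log N ^ 2 / Λ)) ^ r * (A.card * B.card)) := by
      refine (sum_le_sum h2).trans (le_of_eq ?_)
      rw [sum_const, card_range, nsmul_eq_mul]
    have h4 : (J : ℝ) ≤ (6 * (Real.log N / Real.log 2)) ^ r := by
      have h5 : 1 ≤ Real.log N / Real.log 2 := by rw [one_le_div hl2]; exact hlN
      have h6 : (J : ℝ) ≤ 6 * (Real.log N / Real.log 2) := by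
        refine hJl.trans ?_
        apply mul_le_mul_of_nonneg_left _ (by norm_num)
        rw [le_div_iff₀ hl2]
        nlinarith
      exact h6.trans (le_self_pow₀ (by linarith) (by omega))
    have e1 : ∀ u v w x : ℝ, u ^ r * (x + v ^ r * (w ^ r * x)) = (u ^ r + (u * v * w) ^ r) * x := fun u v w x => by
      rw [mul_pow, mul_pow]; ring
    have h5 : (2400 * C * Λ) ^ r * ((A.card * B.card : ℝ) +
        ∑ j ∈ range J, ((G j).card : ℝ) * ((2 : ℝ) ^ (j + 1)) ^ r) ≤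
        ((2400 * C * Λ) ^ r + (2400 * C * Λ * (6 * (Real.log N / Real.log 2)) * (2 * (C * Real.log N ^ 2 / Λ))) ^ r) *
          (A.card * B.card) := by
      calc (2400 * C * Λ) ^ r * ((A.card * B.card : ℝ) +
            ∑ j ∈ range J, ((G j).card : ℝ) * ((2 : ℝ) ^ (j + 1)) ^ r) ≤
          (2400 * C * Λ) ^ r * ((A.card * B.card : ℝ) +
            (6 * (Real.log N / Real.log 2)) ^ r * ((2 * (C * Real.log N ^ 2 / Λ)) ^ r * (A.card * B.card))) := by
              apply mul_le_mul_of_nonneg_left _ (by positivity)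
              exact add_le_add le_rfl (h3.trans (mul_le_mul_of_nonneg_right h4 (by positivity)))
        _ = _ := e1 _ _ _ _
    refine h5.trans (mul_le_mul_of_nonneg_right ?_ hAB)
    have h6 : 2400 * C * Λ ≤ 12000 * C * Real.log N ^ 3 := by
      have h7 : Real.log 2 ^ 3 ≤ Real.log N ^ 3 := pow_le_pow_left₀ hl2.le hlN 3
      have h8 : (0.25 : ℝ) ≤ Real.log 2 ^ 3 := by
        have := pow_le_pow_left₀ (by norm_num : (0 : ℝ) ≤ 0.69) (by linarith : (0.69 : ℝ) ≤ Real.log 2) 3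
        norm_num at this ⊢
        linarith
      have h9 : Λ ≤ 5 * Real.log N ^ 3 := by rw [hΛ]; linarith
      calc 2400 * C * Λ ≤ 2400 * C * (5 * Real.log N ^ 3) := mul_le_mul_of_nonneg_left h9 (by positivity)
        _ = _ := by ring
    have h7 : 2400 * C * Λ * (6 * (Real.log N / Real.log 2)) * (2 * (C * Real.log N ^ 2 / Λ)) ≤
        96000 * C ^ 2 * Real.log N ^ 3 := by
      have e1 : 2400 * C * Λ * (6 * (Real.log N / Real.log 2)) * (2 * (C * Real.log N ^ 2 / Λ)) =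
          28800 * C ^ 2 * Real.log N ^ 3 / Real.log 2 := by
        field_simp
        ring
      rw [e1, div_le_iff₀ hl2]
      have : 0 ≤ C ^ 2 * Real.log N ^ 3 := by positivity
      nlinarith
    have h8 : (0 : ℝ) ≤ 2400 * C * Λ := by positivity
    have h9 : (0 : ℝ) ≤ 2400 * C * Λ * (6 * (Real.log N / Real.log 2)) * (2 * (C * Real.log N ^ 2 / Λ)) := by positivity
    calc (2400 * C * Λ) ^ r + (2400 * C * Λ * (6 * (Real.log N / Real.log 2)) * (2 * (C * Real.log N ^ 2 / Λ))) ^ r ≤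
        (12000 * C * Real.log N ^ 3) ^ r + (96000 * C ^ 2 * Real.log N ^ 3) ^ r :=
          add_le_add (pow_le_pow_left₀ h8 h6 r) (pow_le_pow_left₀ h9 h7 r)
      _ ≤ (12000 * C * Real.log N ^ 3 + 96000 * C ^ 2 * Real.log N ^ 3) ^ r :=
          pow_add_pow_le (by positivity) (by positivity) (by omega)
      _ = (C' * Real.log N ^ 3) ^ r := by rw [hC']; ring
  · intro a ha b hb K _ _ α hfin hα hsq p m e hp he
    obtain ⟨ℓ, hℓ⟩ : ∃ ℓ : ℕ, ℓ = p ^ m := ⟨_, rfl⟩
    have hℓ1 : 1 ≤ ℓ := by rw [hℓ]; exact Nat.one_le_pow _ _ hp.pos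
    refine (numSur_le K p hp e m he).trans ?_
    rw [← hℓ]
    have hd := disc_gt K hfin
    have hz : (a, b) ∈ A ×ˢ B := mem_product.2 ⟨ha, hb⟩
    obtain ⟨s, hs⟩ : ∃ s : ℝ, s = √|(discr K : ℝ)| := ⟨_, rfl⟩
    obtain ⟨μ, hμ⟩ : ∃ μ : ℝ, μ = max (|(discr K : ℝ)| ^ (-(1 / (2 * (ℓ : ℝ))))) (1 / Y) := ⟨_, rfl⟩
    have hs0 : 0 ≤ s := by rw [hs]; exact Real.sqrt_nonneg _
    have hμ0 : 0 ≤ μ := by rw [hμ]; exact le_max_of_le_right (by positivity)
    have hlev : ∀ j : ℕ, ((a, b) ∉ G j ∨ Y < 2 * (2 ^ j * Λ)) → tor K ℓ ≤ 2400 * C * Λ * 2 ^ j * ((ℓ : ℝ) ^ 2 * s * μ) := by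
      intro j hj
      obtain ⟨-, h2, h3⟩ := (hG j).2.2 (a, b) hz ℓ hℓ1 K α hfin hα hsq
      have h4 : 1 ≤ 1200 * (2 ^ j * Λ) * μ ∨ tor K ℓ ≤ C * (ℓ : ℝ) ^ 2 * Real.log N ^ 3 * s * μ := by
        rcases hj with hj | hj
        · rcases h3 hj with h5 | h5
          · left
            rw [hμ]
            exact inv_case hd hY (by positivity) h5
          · right
            rw [hs, hμ]
            exact h5
        · left
          rw [hμ]
          exact inv_case hd hY (by positivity) (lt_of_le_of_lt (min_le_right _ _) hj)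
      have h5 := level hC (by positivity : (0 : ℝ) ≤ 2 ^ j * Λ) hl3.le hs0 hμ0 (by rw [hs]; exact h2) h4
      refine h5.trans (mul_le_mul_of_nonneg_right ?_ (by positivity))
      have h6 : Real.log N ^ 3 ≤ 2 ^ j * Λ := by
        have h7 : (1 : ℝ) ≤ 2 ^ j := one_le_pow₀ (by norm_num)
        calc Real.log N ^ 3 ≤ Λ := by rw [hΛ]; linarith
          _ ≤ 2 ^ j * Λ := le_mul_of_one_le_left hΛ0.le h7
      calc 1200 * C * (2 ^ j * Λ + Real.log N ^ 3) ≤ 1200 * C * (2 ^ j * Λ + 2 ^ j * Λ) := by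
            apply mul_le_mul_of_nonneg_left _ (by positivity)
            linarith
        _ = _ := by ring
    have hex : ∃ j : ℕ, (a, b) ∉ G j ∨ Y < 2 * (2 ^ j * Λ) := ⟨J, Or.inr (by
      have h1 : (0 : ℝ) < 2 ^ J := by positivity
      nlinarith)⟩
    have hfind := Nat.find_spec hex
    obtain ⟨j, hj⟩ : ∃ j : ℕ, j = Nat.find hex := ⟨_, rfl⟩
    rw [← hj] at hfind
    have hjJ : j ≤ J := by
      rw [hj]
      exact Nat.find_min' hex (Or.inr (by
        have h1 : (0 : ℝ) < 2 ^ J := by positivity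
        nlinarith))
    have hT := hlev j hfind
    have hT0 : 0 ≤ tor K ℓ := tor_nonneg K ℓ
    have hq : (0 : ℝ) ≤ (ℓ : ℝ) ^ 2 * s * μ := by positivity
    have hfac : ((2 : ℝ) ^ j) ^ r ≤ 1 + ∑ i ∈ range J, if (a, b) ∈ G i then ((2 : ℝ) ^ (i + 1)) ^ r else 0 := by
      have hnn : ∀ i ∈ range J, (0 : ℝ) ≤ (if (a, b) ∈ G i then ((2 : ℝ) ^ (i + 1)) ^ r else 0) := fun i _ => by
        split_ifs <;> positivity
      rcases Nat.eq_zero_or_pos j with h0 | h0
      · rw [h0, pow_zero, one_pow]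
        linarith [sum_nonneg hnn]
      · obtain ⟨i, hi⟩ : ∃ i, j = i + 1 := ⟨j - 1, by omega⟩
        have h1 : (a, b) ∈ G i := by
          by_contra hcon
          have h2 := Nat.find_min hex (m := i) (by omega)
          exact h2 (Or.inl hcon)
        have h2 := single_le_sum hnn (mem_range.2 (by omega : i < J))
        rw [if_pos h1] at h2
        rw [hi]
        linarith
    calc tor K ℓ ^ r ≤ (2400 * C * Λ * 2 ^ j * ((ℓ : ℝ) ^ 2 * s * μ)) ^ r := pow_le_pow_left₀ hT0 hT r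
      _ = (2400 * C * Λ) ^ r * ((2 : ℝ) ^ j) ^ r * ((ℓ : ℝ) ^ 2 * s * μ) ^ r := by rw [mul_pow, mul_pow]
      _ ≤ (2400 * C * Λ) ^ r * (1 + ∑ i ∈ range J, if (a, b) ∈ G i then ((2 : ℝ) ^ (i + 1)) ^ r else 0) *
          ((ℓ : ℝ) ^ 2 * s * μ) ^ r := by
            apply mul_le_mul_of_nonneg_right _ (by positivity)
            exact mul_le_mul_of_nonneg_left hfac (by positivity)
      _ = F a b * ((ℓ : ℝ) ^ 2 * √|(discr K : ℝ)| * max (|(discr K : ℝ)| ^ (-(1 / (2 * (ℓ : ℝ))))) (1 / Y)) ^ r := by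
            rw [hF, hs, hμ]

end Pool.Agent.Results.MP_0f260b_nt.SumsetMoments
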